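import Pool.Agent.W802.BA.Stms

/-!
The homogeneous family satisfies the isotropic certificate.
-/

set_option autoImplicit false

open MeasureTheory Set Filter Topology Polynomial

namespace Pool.Agent.W646.BA

open Pool.Agent.W779.Morrey Pool.Agent.W802.BA

theorem eta_eval (p ξ : ℝ) : (eta p).eval ξ = ξ + 2 / p * (1 - ξ) := by
  simp [Pool.Agent.W802.BA.eta]

theorem DS_eval (p e : ℝ) (g : ℝ[X]) (ξ : ℝ) : (DS p e g).eval ξ =
    2 * e / p * g.eval ξ - (eta p).eval ξ * ξ * (derivative g).eval ξ := by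
  simp [DS]

theorem DT_eval (p e : ℝ) (g : ℝ[X]) (ξ : ℝ) : (DT p e g).eval ξ =
    e / p * g.eval ξ + 1 / p * (eta p).eval ξ * (1 - ξ) * (derivative g).eval ξ := by
  simp [DT]

/-- the partial derivatives of the family -/
theorem hom_fderiv {p : ℝ} (hp : 0 < p) (e : ℝ) (g : ℝ[X]) {s t : ℝ} (hs : 0 < s) (ht : 0 < t) :
    HasFDerivAt (fun q : ℝ × ℝ => hom p e g q.1 q.2)
      ((p * hom p (e - 1) (DS p e g) s t) • ContinuousLinearMap.fst ℝ ℝ ℝ +
        (p * hom p (e - 1) (DT p e g) s t) • ContinuousLinearMap.snd ℝ ℝ ℝ) (s, t) := by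
  have hX : 0 < t + 2 * s := by positivity
  have hY : 0 < t + p * s := by positivity
  have h1 : HasFDerivAt (fun q : ℝ × ℝ => q.2 + 2 * q.1)
      (ContinuousLinearMap.snd ℝ ℝ ℝ + (2 : ℝ) • ContinuousLinearMap.fst ℝ ℝ ℝ) (s, t) :=
    hasFDerivAt_snd.add (hasFDerivAt_fst.const_mul 2)
  have h2 : HasFDerivAt (fun q : ℝ × ℝ => q.2 + p * q.1)
      (ContinuousLinearMap.snd ℝ ℝ ℝ + p • ContinuousLinearMap.fst ℝ ℝ ℝ) (s, t) :=
    hasFDerivAt_snd.add (hasFDerivAt_fst.const_mul p)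
  have h3 := h1.rpow_const (p := e) (Or.inl hX.ne')
  have h4 : HasFDerivAt (fun q : ℝ × ℝ => (q.2 + p * q.1)⁻¹)
      ((-((t + p * s) ^ 2)⁻¹) • (ContinuousLinearMap.snd ℝ ℝ ℝ + p • ContinuousLinearMap.fst ℝ ℝ ℝ))
      (s, t) := (hasDerivAt_inv hY.ne').comp_hasFDerivAt (s, t) h2
  have h5 : HasFDerivAt (fun q : ℝ × ℝ => q.2 * (q.2 + p * q.1)⁻¹) _ (s, t) :=
    hasFDerivAt_snd.mul h4
  have h6 := (g.hasDerivAt (t * (t + p * s)⁻¹)).comp_hasFDerivAt (s, t) h5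
  have h7 := h3.mul h6
  refine (h7.congr_of_eventuallyEq (Eventually.of_forall fun q => ?_)).congr_fderiv ?_
  · simp only [hom, Function.comp_apply, div_eq_mul_inv, Pi.mul_apply]
  · have hE : (t + 2 * s) ^ e = (t + 2 * s) ^ (e - 1) * (t + 2 * s) := by
      rw [← Real.rpow_add_one hX.ne', sub_add_cancel]
    refine ContinuousLinearMap.ext fun v => ?_
    obtain ⟨v1, v2⟩ := v
    simp only [add_apply, smul_apply, ContinuousLinearMap.coe_fst', ContinuousLinearMap.coe_snd',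
      smul_eq_mul, hom, DS_eval, DT_eval, eta_eval, Function.comp_apply]
    rw [hE, ← div_eq_mul_inv]
    field_simp
    ring

/-- the mixed derivatives agree -/
theorem DS_DT (p e : ℝ) (g : ℝ[X]) : DS p (e - 1) (DT p e g) = DT p (e - 1) (DS p e g) := by
  have h1 : ∀ x : ℝ, (C (x / p) : ℝ[X]) = C x * C (1 / p) := by
    intro x
    rw [← C_mul, mul_one_div]
  have hd : derivative (Pool.Agent.W802.BA.eta p) = 1 - C (2 / p) := by
    simp [Pool.Agent.W802.BA.eta]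
    ring
  unfold DS DT
  simp only [derivative_add, derivative_sub, derivative_mul, derivative_C, derivative_X,
    derivative_one, hd, zero_mul, zero_add]
  unfold Pool.Agent.W802.BA.eta
  rw [h1 (2 * (e - 1)), h1 (2 * e), h1 (e - 1), h1 e, h1 2, C_mul, C_mul, C_sub, C_1]
  ring

/-- continuity of the family on the open quadrant -/
theorem hom_cont {p : ℝ} (hp : 0 < p) (e : ℝ) (g : ℝ[X]) :
    ContinuousOn (fun q : ℝ × ℝ => hom p e g q.1 q.2) (Ioi 0 ×ˢ Ioi 0) := by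
  rintro ⟨s, t⟩ ⟨hs, ht⟩
  exact (hom_fderiv hp e g hs ht).continuousAt.continuousWithinAt

theorem hom_rad1 {p : ℝ} (hp : 0 < p) (e k : ℝ) (g : ℝ[X]) :
    Rad1 (fun s t => k * hom p e g s t) (fun s t => k * p * hom p (e - 1) (DS p e g) s t)
      (fun s t => k * p * hom p (e - 1) (DT p e g) s t) := by
  refine ⟨fun s t hs ht => ?_, ?_, ?_⟩
  · refine ((hom_fderiv hp e g hs ht).const_mul k).congr_fderiv ?_
    rw [smul_add, smul_smul, smul_smul, ← mul_assoc, ← mul_assoc]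
  · exact continuousOn_const.mul (hom_cont hp _ _)
  · exact continuousOn_const.mul (hom_cont hp _ _)

theorem hom_rad2 {p : ℝ} (hp : 0 < p) (R : ℝ[X]) :
    Rad2 (hom p p R) (fun s t => p * hom p (p - 1) (DS p p R) s t)
      (fun s t => p * hom p (p - 1) (DT p p R) s t)
      (fun s t => p ^ 2 * hom p (p - 2) (DS p (p - 1) (DS p p R)) s t)
      (fun s t => p ^ 2 * hom p (p - 2) (DT p (p - 1) (DS p p R)) s t)
      (fun s t => p ^ 2 * hom p (p - 2) (DT p (p - 1) (DT p p R)) s t) := by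
  have e1 : p - 1 - 1 = p - 2 := by ring
  have h1 := hom_rad1 hp (p - 1) p (DS p p R)
  have h2 := hom_rad1 hp (p - 1) p (DT p p R)
  rw [e1, ← sq] at h1 h2
  rw [DS_DT] at h2
  exact ⟨fun s t hs ht => hom_fderiv hp p R hs ht, h1.d0, h2.d0, h1.cs, h1.ct, h2.ct⟩

/-! ### bounds -/

theorem poly_bdd (g : ℝ[X]) : ∃ M : ℝ, ∀ ξ : ℝ, 0 ≤ ξ → ξ ≤ 1 → |g.eval ξ| ≤ M := by
  obtain ⟨M, hM⟩ := isCompact_Icc.exists_bound_of_continuousOn (s := Icc (0 : ℝ) 1)
    (f := fun ξ => g.eval ξ) g.continuous.continuousOn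
  exact ⟨M, fun ξ h0 h1 => hM ξ ⟨h0, h1⟩⟩

/-- a bound for a polynomial on the unit interval -/
noncomputable def Mb (g : ℝ[X]) : ℝ := Classical.choose (poly_bdd g)

theorem Mb_spec (g : ℝ[X]) {ξ : ℝ} (h0 : 0 ≤ ξ) (h1 : ξ ≤ 1) : |g.eval ξ| ≤ Mb g :=
  Classical.choose_spec (poly_bdd g) ξ h0 h1

theorem Mb_nonneg (g : ℝ[X]) : 0 ≤ Mb g :=
  (abs_nonneg _).trans (Mb_spec g le_rfl zero_le_one)

section

variable {p s t : ℝ} (hp : 0 < p) (hs : 0 < s) (ht : 0 < t)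

include hp hs ht

theorem xi_pos : 0 < t / (t + p * s) := by positivity

theorem xi_lt : t / (t + p * s) < 1 := by
  have hY : 0 < t + p * s := by positivity
  rw [div_lt_one hY]
  have : 0 < p * s := by positivity
  linarith

theorem one_sub_xi : 1 - t / (t + p * s) = p * s / (t + p * s) := by
  have hY : t + p * s ≠ 0 := by positivity
  field_simp
  ring

theorem eta_xi : (Pool.Agent.W802.BA.eta p).eval (t / (t + p * s)) = (t + 2 * s) / (t + p * s) := by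
  have hY : t + p * s ≠ 0 := by positivity
  rw [eta_eval]
  field_simp
  ring

theorem hom_abs (e : ℝ) (g : ℝ[X]) : |hom p e g s t| ≤ Mb g * (t + 2 * s) ^ e := by
  have h1 : 0 < (t + 2 * s) ^ e := Real.rpow_pos_of_pos (by positivity) e
  rw [hom, abs_mul, abs_of_pos h1, mul_comm]
  exact mul_le_mul_of_nonneg_right (Mb_spec g (xi_pos hp hs ht).le (xi_lt hp hs ht).le) h1.le

omit hp in
theorem rpow_split (e : ℝ) : (t + 2 * s) ^ e = (t + 2 * s) ^ (e - 1) * (t + 2 * s) := by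
  rw [← Real.rpow_add_one (by positivity), sub_add_cancel]

theorem hom_abs' (e : ℝ) (g : ℝ[X]) {x : ℝ} (hx : x ≤ t + 2 * s) :
    x * |hom p (e - 1) g s t| ≤ Mb g * (t + 2 * s) ^ e := by
  rw [rpow_split hs ht e]
  have h1 := hom_abs hp hs ht (e - 1) g
  have h2 : 0 < (t + 2 * s) ^ (e - 1) := Real.rpow_pos_of_pos (by positivity) _
  calc x * |hom p (e - 1) g s t| ≤ (t + 2 * s) * (Mb g * (t + 2 * s) ^ (e - 1)) :=
        mul_le_mul hx h1 (abs_nonneg _) (by positivity)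
    _ = Mb g * ((t + 2 * s) ^ (e - 1) * (t + 2 * s)) := by ring

theorem hom_one (e : ℝ) (q : ℝ[X]) : hom p e ((X - C 1) * q) s t =
    -(p * s) * hom p (e - 1) (Pool.Agent.W802.BA.eta p * q) s t := by
  have h1 := one_sub_xi hp hs ht
  have h2 := eta_xi hp hs ht
  have hY : t + p * s ≠ 0 := by positivity
  simp only [hom, eval_mul, eval_sub, eval_X, eval_C]
  rw [h2, rpow_split hs ht e]
  have h3 : t / (t + p * s) - 1 = -(p * s / (t + p * s)) := by linarith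
  rw [h3]
  field_simp

theorem hom_zero (e : ℝ) (q : ℝ[X]) : hom p e (X * q) s t =
    t * hom p (e - 1) (Pool.Agent.W802.BA.eta p * q) s t := by
  have h2 := eta_xi hp hs ht
  have hY : t + p * s ≠ 0 := by positivity
  simp only [hom, eval_mul, eval_X]
  rw [h2, rpow_split hs ht e]
  field_simp

end

theorem hom_bounds {p : ℝ} {R a b : ℝ[X]} (hp2 : 2 < p) (H : PolyCert p R a b) (r : ℝ) :
    ∃ c : ℝ, 0 ≤ c ∧ ∀ s t : ℝ, 0 < s → 0 < t → s ≤ r → t ≤ r →
    |hom p p R s t| ≤ c ∧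
    |p ^ 2 * hom p (p - 2) (DS p (p - 1) (DS p p R)) s t| ≤ c ∧
    |p ^ 2 * hom p (p - 2) (DT p (p - 1) (DS p p R)) s t| ≤ c ∧
    |p ^ 2 * hom p (p - 2) (DT p (p - 1) (DT p p R)) s t| ≤ c ∧
    |p * hom p (p - 1) (DS p p R) s t| ≤ c * s ∧
    -(c * t) ≤ p * hom p (p - 1) (DT p p R) s t ∧
    |p ^ 2 * hom p (p - 2) (Pool.Agent.W802.BA.eta p ^ 2 * a) s t| ≤ c ∧
    s * |p ^ 3 * hom p (p - 3) (DS p (p - 2) (Pool.Agent.W802.BA.eta p ^ 2 * a)) s t| ≤ c ∧
    s * |p ^ 3 * hom p (p - 3) (DT p (p - 2) (Pool.Agent.W802.BA.eta p ^ 2 * a)) s t| ≤ c ∧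
    |p * hom p (p - 2) (Pool.Agent.W802.BA.eta p ^ 2 * b) s t| ≤ c ∧
    t * |p ^ 2 * hom p (p - 3) (DS p (p - 2) (Pool.Agent.W802.BA.eta p ^ 2 * b)) s t| ≤ c ∧
    t * |p ^ 2 * hom p (p - 3) (DT p (p - 2) (Pool.Agent.W802.BA.eta p ^ 2 * b)) s t| ≤ c := by
  have hp : 0 < p := by linarith
  obtain ⟨q, hq⟩ : (X - C 1) ∣ DS p p R := by
    rw [dvd_iff_isRoot, IsRoot, DS_eval, eta_eval, H.R1, H.dR1]
    field_simp
    ring
  have hT : DT p p R = C ((DT p p R).eval 0) + X * divX (DT p p R) := by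
    conv_lhs => rw [← divX_mul_X_add (DT p p R)]
    rw [coeff_zero_eq_eval_zero]
    ring
  set q' := divX (DT p p R) with hq'
  set K0 := (3 * r) ^ p with hK0
  set K2 := (3 * r) ^ (p - 2) with hK2
  by_cases hr : 0 < r
  swap
  · exact ⟨0, le_rfl, fun s t hs _ hsr _ => absurd (hs.trans_le hsr) hr⟩
  have hK0p : 0 ≤ K0 := Real.rpow_nonneg (by positivity) _
  have hK2p : 0 ≤ K2 := Real.rpow_nonneg (by positivity) _
  set c1 := Mb R * K0 with hc1
  set c2 := p ^ 2 * (Mb (DS p (p - 1) (DS p p R)) * K2) with hc2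
  set c3 := p ^ 2 * (Mb (DT p (p - 1) (DS p p R)) * K2) with hc3
  set c4 := p ^ 2 * (Mb (DT p (p - 1) (DT p p R)) * K2) with hc4
  set c5 := p ^ 2 * (Mb (Pool.Agent.W802.BA.eta p * q) * K2) with hc5
  set c6 := p * (Mb (Pool.Agent.W802.BA.eta p * q') * K2) with hc6
  set c7 := p ^ 2 * (Mb (Pool.Agent.W802.BA.eta p ^ 2 * a) * K2) with hc7
  set c8 := p ^ 3 * (Mb (DS p (p - 2) (Pool.Agent.W802.BA.eta p ^ 2 * a)) * K2) with hc8
  set c9 := p ^ 3 * (Mb (DT p (p - 2) (Pool.Agent.W802.BA.eta p ^ 2 * a)) * K2) with hc9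
  set c10 := p * (Mb (Pool.Agent.W802.BA.eta p ^ 2 * b) * K2) with hc10
  set c11 := p ^ 2 * (Mb (DS p (p - 2) (Pool.Agent.W802.BA.eta p ^ 2 * b)) * K2) with hc11
  set c12 := p ^ 2 * (Mb (DT p (p - 2) (Pool.Agent.W802.BA.eta p ^ 2 * b)) * K2) with hc12
  have n1 : 0 ≤ c1 := mul_nonneg (Mb_nonneg _) hK0p
  have nn : ∀ g, 0 ≤ Mb g * K2 := fun g => mul_nonneg (Mb_nonneg _) hK2p
  have n2 : 0 ≤ c2 := mul_nonneg (by positivity) (nn _)
  have n3 : 0 ≤ c3 := mul_nonneg (by positivity) (nn _)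
  have n4 : 0 ≤ c4 := mul_nonneg (by positivity) (nn _)
  have n5 : 0 ≤ c5 := mul_nonneg (by positivity) (nn _)
  have n6 : 0 ≤ c6 := mul_nonneg (by positivity) (nn _)
  have n7 : 0 ≤ c7 := mul_nonneg (by positivity) (nn _)
  have n8 : 0 ≤ c8 := mul_nonneg (by positivity) (nn _)
  have n9 : 0 ≤ c9 := mul_nonneg (by positivity) (nn _)
  have n10 : 0 ≤ c10 := mul_nonneg (by positivity) (nn _)
  have n11 : 0 ≤ c11 := mul_nonneg (by positivity) (nn _)
  have n12 : 0 ≤ c12 := mul_nonneg (by positivity) (nn _)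
  refine ⟨c1 + c2 + c3 + c4 + c5 + c6 + c7 + c8 + c9 + c10 + c11 + c12, ?_,
    fun s t hs ht hsr htr => ?_⟩
  · clear_value c1 c2 c3 c4 c5 c6 c7 c8 c9 c10 c11 c12
    linarith
  have hX : 0 < t + 2 * s := by positivity
  have hX3 : t + 2 * s ≤ 3 * r := by linarith
  have hE0 : (t + 2 * s) ^ p ≤ K0 := Real.rpow_le_rpow hX.le hX3 hp.le
  have hE2 : (t + 2 * s) ^ (p - 2) ≤ K2 := Real.rpow_le_rpow hX.le hX3 (by linarith)
  have g2 : ∀ g : ℝ[X], |hom p (p - 2) g s t| ≤ Mb g * K2 := fun g =>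
    (hom_abs hp hs ht (p - 2) g).trans (mul_le_mul_of_nonneg_left hE2 (Mb_nonneg _))
  have g3 : ∀ (g : ℝ[X]) (x : ℝ), x ≤ t + 2 * s → x * |hom p (p - 3) g s t| ≤ Mb g * K2 := by
    intro g x hx
    have h := hom_abs' hp hs ht (p - 2) g hx
    rw [show p - 2 - 1 = p - 3 by ring] at h
    exact h.trans (mul_le_mul_of_nonneg_left hE2 (Mb_nonneg _))
  have k2 : ∀ (k : ℝ) (g : ℝ[X]), 0 ≤ k → |k * hom p (p - 2) g s t| ≤ k * (Mb g * K2) := by
    intro k g hk
    rw [abs_mul, abs_of_nonneg hk]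
    exact mul_le_mul_of_nonneg_left (g2 g) hk
  have k3 : ∀ (k : ℝ) (g : ℝ[X]) (x : ℝ), 0 ≤ k → x ≤ t + 2 * s →
      x * |k * hom p (p - 3) g s t| ≤ k * (Mb g * K2) := by
    intro k g x hk hx
    rw [abs_mul, abs_of_nonneg hk]
    calc x * (k * |hom p (p - 3) g s t|) = k * (x * |hom p (p - 3) g s t|) := by ring
      _ ≤ _ := mul_le_mul_of_nonneg_left (g3 g x hx) hk
  have hp2' : (0 : ℝ) ≤ p ^ 2 := by positivity
  have hp3' : (0 : ℝ) ≤ p ^ 3 := by positivity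
  have hst : s ≤ t + 2 * s := by linarith
  have htt : t ≤ t + 2 * s := by linarith
  have e1 : |hom p p R s t| ≤ c1 :=
    (hom_abs hp hs ht p R).trans (mul_le_mul_of_nonneg_left hE0 (Mb_nonneg _))
  have e2 : _ ≤ c2 := k2 (p ^ 2) (DS p (p - 1) (DS p p R)) hp2'
  have e3 : _ ≤ c3 := k2 (p ^ 2) (DT p (p - 1) (DS p p R)) hp2'
  have e4 : _ ≤ c4 := k2 (p ^ 2) (DT p (p - 1) (DT p p R)) hp2'
  have e7 : _ ≤ c7 := k2 (p ^ 2) (Pool.Agent.W802.BA.eta p ^ 2 * a) hp2'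
  have e8 : _ ≤ c8 := k3 (p ^ 3) (DS p (p - 2) (Pool.Agent.W802.BA.eta p ^ 2 * a)) s hp3' hst
  have e9 : _ ≤ c9 := k3 (p ^ 3) (DT p (p - 2) (Pool.Agent.W802.BA.eta p ^ 2 * a)) s hp3' hst
  have e10 : _ ≤ c10 := k2 p (Pool.Agent.W802.BA.eta p ^ 2 * b) hp.le
  have e11 : _ ≤ c11 := k3 (p ^ 2) (DS p (p - 2) (Pool.Agent.W802.BA.eta p ^ 2 * b)) t hp2' htt
  have e12 : _ ≤ c12 := k3 (p ^ 2) (DT p (p - 2) (Pool.Agent.W802.BA.eta p ^ 2 * b)) t hp2' htt
  have e5 : |p * hom p (p - 1) (DS p p R) s t| ≤ c5 * s := by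
    rw [hq, hom_one hp hs ht, show p - 1 - 1 = p - 2 by ring]
    have h1 := k2 (p ^ 2) (Pool.Agent.W802.BA.eta p * q) hp2'
    calc |p * (-(p * s) * hom p (p - 2) (Pool.Agent.W802.BA.eta p * q) s t)|
        = |p ^ 2 * hom p (p - 2) (Pool.Agent.W802.BA.eta p * q) s t| * s := by
          rw [show p * (-(p * s) * hom p (p - 2) (Pool.Agent.W802.BA.eta p * q) s t) =
            -(p ^ 2 * hom p (p - 2) (Pool.Agent.W802.BA.eta p * q) s t * s) by ring, abs_neg,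
            abs_mul, abs_of_pos hs]
      _ ≤ c5 * s := mul_le_mul_of_nonneg_right h1 hs.le
  have e6 : -(c6 * t) ≤ p * hom p (p - 1) (DT p p R) s t := by
    have h1 : hom p (p - 1) (DT p p R) s t = (t + 2 * s) ^ (p - 1) * (DT p p R).eval 0 +
        t * hom p (p - 2) (Pool.Agent.W802.BA.eta p * q') s t := by
      have h2 := hom_zero hp hs ht (p - 1) q'
      rw [show p - 1 - 1 = p - 2 by ring] at h2
      rw [← h2]
      conv_lhs => rw [hT]
      simp only [hom, eval_add, eval_C]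
      ring
    rw [h1]
    have h3 : 0 ≤ (t + 2 * s) ^ (p - 1) * (DT p p R).eval 0 :=
      mul_nonneg (Real.rpow_nonneg hX.le _) H.T0
    have h4 := k2 p (Pool.Agent.W802.BA.eta p * q') hp.le
    have h5 := neg_abs_le (p * hom p (p - 2) (Pool.Agent.W802.BA.eta p * q') s t)
    have h4' : _ ≤ c6 := h4
    have h6 : -c6 ≤ p * hom p (p - 2) (Pool.Agent.W802.BA.eta p * q') s t := by
      clear_value c6
      linarith
    have h7 := mul_le_mul_of_nonneg_right h6 ht.le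
    have h8 := mul_nonneg hp.le h3
    clear_value c6
    linarith
  clear_value c1 c2 c3 c4 c5 c6 c7 c8 c9 c10 c11 c12
  refine ⟨by linarith, by linarith, by linarith, by linarith, ?_, ?_, by linarith, by linarith,
    by linarith, by linarith, by linarith, by linarith⟩
  · refine e5.trans (mul_le_mul_of_nonneg_right (by linarith) hs.le)
  · have : c6 * t ≤ (c1 + c2 + c3 + c4 + c5 + c6 + c7 + c8 + c9 + c10 + c11 + c12) * t :=
      mul_le_mul_of_nonneg_right (by linarith) ht.le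
    linarith

theorem hom_cert {p : ℝ} {R a b : ℝ[X]} (hp2 : 2 < p) {s t : ℝ} (hs : 0 < s) (ht : 0 < t)
    (x y z w : ℝ) :
    Q4 (fun s t => p * hom p (p - 1) (DS p p R) s t)
      (fun s t => p * hom p (p - 1) (DT p p R) s t)
      (fun s t => p ^ 2 * hom p (p - 2) (DS p (p - 1) (DS p p R)) s t)
      (fun s t => p ^ 2 * hom p (p - 2) (DT p (p - 1) (DS p p R)) s t)
      (fun s t => p ^ 2 * hom p (p - 2) (DT p (p - 1) (DT p p R)) s t)
      (fun s t => p ^ 2 * hom p (p - 2) (Pool.Agent.W802.BA.eta p ^ 2 * a) s t)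
      (fun s t => p ^ 3 * hom p (p - 3) (DS p (p - 2) (Pool.Agent.W802.BA.eta p ^ 2 * a)) s t)
      (fun s t => p ^ 3 * hom p (p - 3) (DT p (p - 2) (Pool.Agent.W802.BA.eta p ^ 2 * a)) s t)
      (fun s t => p * hom p (p - 2) (Pool.Agent.W802.BA.eta p ^ 2 * b) s t)
      (fun s t => p ^ 2 * hom p (p - 3) (DS p (p - 2) (Pool.Agent.W802.BA.eta p ^ 2 * b)) s t)
      (fun s t => p ^ 2 * hom p (p - 3) (DT p (p - 2) (Pool.Agent.W802.BA.eta p ^ 2 * b)) s t)
      s t x y z w =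
    p ^ 2 * (t + 2 * s) ^ (p - 2) * NF p R a b (t / (t + p * s)) x y z w := by
  have hp : 0 < p := by linarith
  have hX : 0 < t + 2 * s := by positivity
  have hY : 0 < t + p * s := by positivity
  have h1 := one_sub_xi hp hs ht
  have h2 := eta_xi hp hs ht
  have r1 : (Pool.Agent.W802.BA.eta p).eval (t / (t + p * s)) / (1 - t / (t + p * s)) =
      (t + 2 * s) / (p * s) := by
    rw [h1, h2]
    field_simp
  have r2 : (Pool.Agent.W802.BA.eta p).eval (t / (t + p * s)) / (p * (t / (t + p * s))) =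
      (t + 2 * s) / (p * t) := by
    rw [h2]
    field_simp
  have r3 : (1 - t / (t + p * s)) / (Pool.Agent.W802.BA.eta p).eval (t / (t + p * s)) =
      (p * s) / (t + 2 * s) := by
    rw [h1, h2]
    field_simp
  have r4 : t / (t + p * s) / (Pool.Agent.W802.BA.eta p).eval (t / (t + p * s)) =
      t / (t + 2 * s) := by
    rw [h2]
    field_simp
  have E1 : (t + 2 * s) ^ (p - 1) = (t + 2 * s) ^ (p - 2) * (t + 2 * s) := by
    rw [← Real.rpow_add_one hX.ne']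
    congr 1
    ring
  have E3 : (t + 2 * s) ^ (p - 3) = (t + 2 * s) ^ (p - 2) / (t + 2 * s) := by
    rw [← Real.rpow_sub_one hX.ne']
    congr 1
    ring
  unfold Q4 NF hom
  beta_reduce
  rw [r1, r2, r3, r4, E1, E3]
  generalize (DS p (p - 1) (DS p p R)).eval (t / (t + p * s)) = A1
  generalize (DS p p R).eval (t / (t + p * s)) = A2
  generalize (DT p (p - 1) (DT p p R)).eval (t / (t + p * s)) = A3
  generalize (DT p p R).eval (t / (t + p * s)) = A4
  generalize (DT p (p - 1) (DS p p R)).eval (t / (t + p * s)) = A5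
  generalize (Pool.Agent.W802.BA.eta p ^ 2 * a).eval (t / (t + p * s)) = A6
  generalize (DS p (p - 2) (Pool.Agent.W802.BA.eta p ^ 2 * a)).eval (t / (t + p * s)) = A7
  generalize (DT p (p - 2) (Pool.Agent.W802.BA.eta p ^ 2 * a)).eval (t / (t + p * s)) = A8
  generalize (Pool.Agent.W802.BA.eta p ^ 2 * b).eval (t / (t + p * s)) = A9
  generalize (DS p (p - 2) (Pool.Agent.W802.BA.eta p ^ 2 * b)).eval (t / (t + p * s)) = A10
  generalize (DT p (p - 2) (Pool.Agent.W802.BA.eta p ^ 2 * b)).eval (t / (t + p * s)) = A11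
  generalize (t + 2 * s) ^ (p - 2) = Z
  field_simp

/-- the homogeneous family satisfies the isotropic certificate -/
theorem fam : S_Fam := by
  intro p R a b hp2 H
  have hp : 0 < p := by linarith
  have e2 : p - 2 - 1 = p - 3 := by ring
  have ha := hom_rad1 hp (p - 2) (p ^ 2) (Pool.Agent.W802.BA.eta p ^ 2 * a)
  have hb := hom_rad1 hp (p - 2) p (Pool.Agent.W802.BA.eta p ^ 2 * b)
  rw [e2, ← pow_succ] at ha
  rw [e2, ← sq] at hb
  refine ⟨hom_rad2 hp R, ha, hb, hom_bounds hp2 H, ?_⟩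
  intro s t x y z w hs ht hxy
  rw [hom_cert hp2 hs ht]
  refine mul_nonneg (mul_nonneg (by positivity) (Real.rpow_nonneg (by positivity) _)) ?_
  exact H.form _ x y z w (xi_pos hp hs ht) (xi_lt hp hs ht) hxy

end Pool.Agent.W646.BA
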